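import Pool.Agent.Helper35.PI.St2

/-! # Project PI, module NR: the normal projection -/

namespace Helper89.PI

open Helper35.PI
open Set

private lemma gram_isUnit {n N : ℕ} {f : EE n → EE N} {x : EE n} (h : LI f x) :
    IsUnit (gram f x) := by
  rw [← Matrix.mulVec_injective_iff_isUnit]
  intro c d hcd
  have h0 : (gram f x).mulVec (c - d) = 0 := by
    rw [Matrix.mulVec_sub, sub_eq_zero]; exact hcd
  set e := c - d with he
  have h1 : ∀ i, (inner ℝ (dv1 f x i) (∑ j, e j • dv1 f x j) : ℝ) = 0 := by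
    intro i
    have := congrFun h0 i
    simp only [Matrix.mulVec, dotProduct, gram, Matrix.of_apply, Pi.zero_apply] at this
    rw [inner_sum]
    rw [← this]
    refine Finset.sum_congr rfl fun j _ => ?_
    rw [inner_smul_right]; ring
  have h2 : (∑ j, e j • dv1 f x j) = 0 := by
    rw [← inner_self_eq_zero (𝕜 := ℝ)]
    conv_lhs => rw [sum_inner]
    refine Finset.sum_eq_zero fun i _ => ?_
    rw [inner_smul_left, h1]; simp
  have h3 := (Fintype.linearIndependent_iff.1 h) e h2
  have : e = 0 := funext h3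
  rw [he, sub_eq_zero] at this
  exact this

private lemma gram_symm {n N : ℕ} (f : EE n → EE N) (x : EE n) (i j : Fin n) :
    gram f x i j = gram f x j i := by
  simp only [gram, Matrix.of_apply]
  exact real_inner_comm _ _

private lemma inv_mul {n N : ℕ} {f : EE n → EE N} {x : EE n} (h : LI f x) (k i : Fin n) :
    ∑ l, (gram f x)⁻¹ k l * gram f x l i = if k = i then 1 else 0 := by
  have h1 : (gram f x)⁻¹ * gram f x = 1 :=
    Matrix.nonsing_inv_mul _ ((Matrix.isUnit_iff_isUnit_det _).1 (gram_isUnit h))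
  have h2 := congrFun (congrFun h1 k) i
  rw [Matrix.mul_apply, Matrix.one_apply] at h2
  exact h2

private lemma perp_span {n N : ℕ} {b : Fin n → EE N} {u : EE N}
    (hu : ∀ i, (inner ℝ u (b i) : ℝ) = 0) {s : EE N} (hs : s ∈ Submodule.span ℝ (range b)) :
    (inner ℝ u s : ℝ) = 0 := by
  induction hs using Submodule.span_induction with
  | mem y hy => obtain ⟨i, rfl⟩ := hy; exact hu i
  | zero => simp
  | add y z _ _ h1 h2 => rw [inner_add_right, h1, h2, add_zero]
  | smul c y _ h1 => rw [inner_smul_right, h1, mul_zero]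

/-- module NR -/
theorem hNR : StNR := by
  intro n N f x hL
  have A1 : ∀ v i, (inner ℝ (nrm f x v) (dv1 f x i) : ℝ) = 0 := by
    intro v i
    unfold nrm
    rw [inner_sub_left, sum_inner]
    have e : ∀ k, (inner ℝ (∑ l, ((gram f x)⁻¹ k l * inner ℝ v (dv1 f x k)) • dv1 f x l) (dv1 f x i) : ℝ)
        = inner ℝ v (dv1 f x k) * (if k = i then 1 else 0) := by
      intro k
      rw [sum_inner, ← inv_mul hL k i, Finset.mul_sum]
      refine Finset.sum_congr rfl fun l _ => ?_
      rw [inner_smul_left]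
      simp only [gram, Matrix.of_apply, conj_trivial]
      ring
    rw [Finset.sum_congr rfl fun k _ => e k]
    simp
  have A3 : ∀ v, v - nrm f x v ∈ Submodule.span ℝ (range fun i => dv1 f x i) := by
    intro v
    unfold nrm
    rw [sub_sub_cancel]
    exact Submodule.sum_mem _ fun k _ => Submodule.sum_mem _ fun l _ =>
      Submodule.smul_mem _ _ (Submodule.subset_span ⟨l, rfl⟩)
  have A2 : ∀ v ∈ Submodule.span ℝ (range fun i => dv1 f x i), nrm f x v = 0 := by
    intro v hv
    have h1 : nrm f x v ∈ Submodule.span ℝ (range fun i => dv1 f x i) := by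
      have := Submodule.sub_mem _ hv (A3 v)
      rwa [sub_sub_cancel] at this
    exact (inner_self_eq_zero (𝕜 := ℝ)).1 (perp_span (A1 v) h1)
  have A7 : ∀ v w, (inner ℝ (nrm f x v) w : ℝ) = inner ℝ (nrm f x v) (nrm f x w) := by
    intro v w
    have := perp_span (A1 v) (A3 w)
    rw [inner_sub_right, sub_eq_zero] at this
    exact this
  refine ⟨A1, A2, A3, ?_, ?_, ?_, ?_, ?_⟩
  · intro v hv
    unfold nrm
    simp [hv]
  · intro v w
    unfold nrm
    have : ∑ k, ∑ l, ((gram f x)⁻¹ k l * inner ℝ (v + w) (dv1 f x k)) • dv1 f x l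
        = ∑ k, ∑ l, ((gram f x)⁻¹ k l * inner ℝ v (dv1 f x k)) • dv1 f x l
          + ∑ k, ∑ l, ((gram f x)⁻¹ k l * inner ℝ w (dv1 f x k)) • dv1 f x l := by
      rw [← Finset.sum_add_distrib]
      refine Finset.sum_congr rfl fun k _ => ?_
      rw [← Finset.sum_add_distrib]
      refine Finset.sum_congr rfl fun l _ => ?_
      rw [inner_add_left, mul_add, add_smul]
    rw [this]; abel
  · intro c v
    unfold nrm
    rw [smul_sub, Finset.smul_sum]
    congr 1
    refine Finset.sum_congr rfl fun k _ => ?_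
    rw [Finset.smul_sum]
    refine Finset.sum_congr rfl fun l _ => ?_
    rw [inner_smul_left, smul_smul]
    simp only [conj_trivial]
    congr 1; ring
  · intro v w
    rw [A7 v w, real_inner_comm, ← A7 w v, real_inner_comm]
  · intro v
    have h1 : ‖nrm f x v‖ ^ 2 ≤ ‖nrm f x v‖ * ‖v‖ := by
      rw [← real_inner_self_eq_norm_sq, ← A7 v v]
      exact real_inner_le_norm _ _
    by_cases h0 : ‖nrm f x v‖ = 0
    · rw [h0]; exact norm_nonneg v
    · have hp : 0 < ‖nrm f x v‖ := lt_of_le_of_ne (norm_nonneg _) (Ne.symm h0)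
      rw [pow_two] at h1
      exact le_of_mul_le_mul_left h1 hp

end Helper89.PI
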